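import Pool.Agent.H90.STK.Stmts3

/-!
# The mean logarithm of the number of near lines, in one cell
-/

set_option autoImplicit false

namespace Pool.STK

open Finset Real MeasureTheory
open scoped RealInnerProductSpace
open Pool.Agent.H49.Ent Pool.Agent.H32.Dense
open Pool.Agent.H53.Kak (E tube)
open Pool.Agent.H53.Dns (Mx psl slp)

namespace TM2

/-- Conditioning on a constant. -/
lemma CH_unit {Ω S : Type} [Fintype Ω] {p : Ω → ℝ} (hp : IsLaw p) (X : Ω → S) :
    CH p X (fun _ => ()) = H p X := by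
  unfold CH
  rw [H_const hp.sum_one]
  have : H p (fun ω => (X ω, ())) = H p X :=
    H_comp_injective hp.nonneg X (f := fun s => (s, ())) (fun a b h => (Prod.ext_iff.mp h).1)
  rw [this, sub_zero]

/-- Conditioning on a pair with a constant. -/
lemma CH_unit2 {Ω S T : Type} [Fintype Ω] {p : Ω → ℝ} (hp : IsLaw p) (X : Ω → S) (Y : Ω → T) :
    CH p X (fun ω => (Y ω, ())) ≤ CH p X Y :=
  CH_mono_cond hp.nonneg (fun ω ω' _ _ h => (Prod.ext_iff.mp h).1)

/-- Choice of the number of scales. -/
lemma exists_K {M K₀ : ℕ} {δ : ℝ} (hM : 1 ≤ M) (hδ : 0 < δ)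
    (h : 16 * δ ≤ ((2 : ℝ) ^ (M * K₀))⁻¹) :
    ∃ K : ℕ, K₀ ≤ K ∧ 16 * δ ≤ ((2 : ℝ) ^ (M * K))⁻¹ ∧
      ((2 : ℝ) ^ (M * K))⁻¹ ≤ 2 ^ (M + 4) * δ := by
  have hx : 0 < 16 * δ := by positivity
  have h0 : (2 : ℝ) ^ (M * K₀) ≤ (16 * δ)⁻¹ := by
    rw [le_inv_comm₀ (by positivity) hx]
    exact h
  have h1 : (1 : ℝ) ≤ (16 * δ)⁻¹ := (one_le_pow₀ (by norm_num)).trans h0
  have hM2 : (1 : ℝ) < 2 ^ M := one_lt_pow₀ (by norm_num) (by omega)
  obtain ⟨n, h2, h3⟩ := exists_nat_pow_near h1 hM2
  rw [← pow_mul] at h2 h3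
  refine ⟨n, ?_, ?_, ?_⟩
  · by_contra hn
    have h4 : n + 1 ≤ K₀ := by omega
    have h5 : (2 : ℝ) ^ (M * (n + 1)) ≤ 2 ^ (M * K₀) :=
      pow_le_pow_right₀ (by norm_num) (Nat.mul_le_mul_left M h4)
    linarith
  · rw [le_inv_comm₀ hx (by positivity)]
    exact h2
  · rw [mul_add, mul_one, pow_add] at h3
    have h6 : 1 < 2 ^ (M * n) * 2 ^ M * (16 * δ) := by
      rw [inv_lt_iff_one_lt_mul₀ hx] at h3
      exact h3
    have h7 : (0 : ℝ) < 2 ^ (M * n) := by positivity
    rw [inv_le_iff_one_le_mul₀ h7]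
    have h8 : (2 : ℝ) ^ (M + 4) = 2 ^ M * 16 := by rw [pow_add]; norm_num
    rw [h8]
    nlinarith [h6]

/-- Comparison of the scales. -/
lemma scales {M K r : ℕ} {δ : ℝ} (hM : 1 ≤ M) (hr : r ≤ M) (hδ : 0 < δ)
    (h1 : 16 * δ ≤ ((2 : ℝ) ^ (M * K))⁻¹) (h2 : ((2 : ℝ) ^ (M * K))⁻¹ ≤ 2 ^ (M + 4) * δ) :
    δ ^ ((r : ℝ) / M) ≤ ((2 : ℝ) ^ (r * K))⁻¹ ∧
      ((2 : ℝ) ^ (r * K))⁻¹ ≤ 2 ^ (M + 4) * δ ^ ((r : ℝ) / M) := by
  have hM0 : (0 : ℝ) < M := by exact_mod_cast hM
  have hs0 : (0 : ℝ) ≤ (r : ℝ) / M := by positivity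
  have hs1 : (r : ℝ) / M ≤ 1 := by
    rw [div_le_one hM0]
    exact_mod_cast hr
  have hx : ((2 : ℝ) ^ (r * K))⁻¹ = (((2 : ℝ) ^ (M * K))⁻¹) ^ ((r : ℝ) / M) := by
    rw [Real.inv_rpow (by positivity), ← Real.rpow_natCast 2 (M * K), ← Real.rpow_mul (by norm_num),
      ← Real.rpow_natCast 2 (r * K)]
    congr 2
    push_cast
    field_simp
  rw [hx]
  constructor
  · exact Real.rpow_le_rpow hδ.le (by linarith) hs0
  · calc (((2 : ℝ) ^ (M * K))⁻¹) ^ ((r : ℝ) / M) ≤ (2 ^ (M + 4) * δ) ^ ((r : ℝ) / M) :=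
        Real.rpow_le_rpow (by positivity) h2 hs0
      _ = ((2 : ℝ) ^ (M + 4)) ^ ((r : ℝ) / M) * δ ^ ((r : ℝ) / M) :=
        Real.mul_rpow (by positivity) hδ.le
      _ ≤ 2 ^ (M + 4) * δ ^ ((r : ℝ) / M) := by
        refine mul_le_mul_of_nonneg_right ?_ (by positivity)
        have h3 : (1 : ℝ) ≤ 2 ^ (M + 4) := one_le_pow₀ (by norm_num)
        calc ((2 : ℝ) ^ (M + 4)) ^ ((r : ℝ) / M) ≤ ((2 : ℝ) ^ (M + 4)) ^ (1 : ℝ) :=
            Real.rpow_le_rpow_of_exponent_le h3 hs1
          _ = _ := Real.rpow_one _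

/-- The coarsest positions take few values. -/
lemma coarse {d : ℕ} {ι : Type} [Fintype ι] {p : ι → ℝ} (hp : IsLaw p) (u : ι → Fin d → ℝ)
    (q : Fin d → ℤ) (hq : ∀ i, fl 0 (u i) = q) (σ : Fin d → ℝ) (hσ : ∀ l, 0 ≤ σ l ∧ σ l < 1) :
    H p (Fl (sft u σ) 0) ≤ d * Real.log 2 := by
  classical
  have h := H_le_log_card hp.nonneg hp.sum_one (Fl (sft u σ) 0)
    (Fintype.piFinset fun l : Fin d => ({q l, q l + 1} : Finset ℤ)) (by
      intro i _
      rw [Fintype.mem_piFinset]
      intro l
      have h1 : fl 0 (u i) l = q l := by rw [hq i]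
      unfold fl rd at h1
      simp only [pow_zero, one_mul] at h1
      have h2 : Fl (sft u σ) 0 i l = ⌊u i l + σ l⌋ := by
        unfold Fl fl rd sft
        simp only [pow_zero, one_mul]
      rw [h2]
      have h3 := Int.floor_eq_iff.mp h1
      have h4 : ⌊u i l + σ l⌋ = q l ∨ ⌊u i l + σ l⌋ = q l + 1 := by
        rcases lt_or_ge (u i l + σ l) (q l + 1) with h5 | h5
        · left
          rw [Int.floor_eq_iff]
          exact ⟨by linarith [(hσ l).1], h5⟩
        · right
          rw [Int.floor_eq_iff]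
          push_cast
          exact ⟨h5, by linarith [(hσ l).2]⟩
      simpa using h4)
  refine h.trans ?_
  rw [Fintype.card_piFinset]
  have h6 : ∀ l : Fin d, ({q l, q l + 1} : Finset ℤ).card = 2 := fun l =>
    Finset.card_pair (by omega)
  rw [Finset.prod_congr rfl fun l _ => h6 l]
  simp

/-- The arithmetic of one shift. -/
lemma arith {d : ℕ} {α ε n X h S c₀ C₅ C₇ CT δ R : ℝ} {M K : ℕ} (hd : 1 ≤ d)
    (hε : 0 < ε) (hα : α = ε / (2 ^ (d + 1) * d)) (hR : R = ε * Real.log 2 / 2 ^ (d + 1))
    (hδ : 0 < δ) (hn : 0 < n) (hnT : n ≤ CT * (δ ^ d)⁻¹) (hCT : 1 ≤ CT) (hX : X ≤ Real.log n)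
    (hK : 16 * δ ≤ ((2 : ℝ) ^ (M * K))⁻¹)
    (h7 : Real.log n ≤ h + C₇)
    (hh : h ≤ c₀ + (d * Real.log 2 + (M * Real.log C₅ + S)) + ((1 + α) * X + R * (M * K))) :
    Real.log n - X ≤ (c₀ + C₇ + d * Real.log 2 + M * Real.log C₅ + α * Real.log CT) + S +
      ε / 2 ^ d * Real.log (1 / δ) := by
  have hd0 : (0 : ℝ) < d := by exact_mod_cast hd
  have hα0 : 0 < α := by rw [hα]; positivity
  have hCT0 : 0 < CT := by linarith
  have l1 : Real.log n ≤ Real.log CT + d * Real.log (1 / δ) := by
    have := Real.log_le_log hn hnT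
    rw [Real.log_mul hCT0.ne' (by positivity), Real.log_inv, Real.log_pow] at this
    rw [one_div, Real.log_inv]
    linarith
  have l2 : (M : ℝ) * K * Real.log 2 ≤ Real.log (1 / δ) := by
    have h1 : δ ≤ ((2 : ℝ) ^ (M * K))⁻¹ := by linarith
    have := Real.log_le_log hδ h1
    rw [Real.log_inv, Real.log_pow] at this
    rw [one_div, Real.log_inv]
    push_cast at this
    linarith
  have l3 : α * X ≤ α * Real.log CT + ε / 2 ^ (d + 1) * Real.log (1 / δ) := by
    have h1 : α * X ≤ α * (Real.log CT + d * Real.log (1 / δ)) :=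
      mul_le_mul_of_nonneg_left (hX.trans l1) hα0.le
    have h2 : α * d = ε / 2 ^ (d + 1) := by
      rw [hα]
      field_simp
    calc α * X ≤ _ := h1
      _ = α * Real.log CT + (α * d) * Real.log (1 / δ) := by ring
      _ = _ := by rw [h2]
  have l4 : R * (M * K) ≤ ε / 2 ^ (d + 1) * Real.log (1 / δ) := by
    have h1 : R * (M * K) = ε / 2 ^ (d + 1) * (M * K * Real.log 2) := by
      rw [hR]
      ring
    rw [h1]
    exact mul_le_mul_of_nonneg_left l2 (by positivity)
  have l5 : ε / 2 ^ d * Real.log (1 / δ) = 2 * (ε / 2 ^ (d + 1) * Real.log (1 / δ)) := by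
    rw [pow_succ]
    ring
  rw [l5]
  linarith

end TM2

open TM2 in
/-- **TM2**. -/
theorem tm2_thm (hEP : EPStmt) (hSPA : SPAStmt) (hUNI : UNIStmt) (hSHF : SHFStmt)
    (hNRI : NRIStmt) (hTD2 : TD2Stmt) (hTS2 : TS2Stmt) (hTCD : TCDStmt) (hINT : INTStmt) :
    TM2Stmt := by
  classical
  intro d hd ε L hε hL
  have hd0 : (0 : ℝ) < d := by exact_mod_cast hd
  have hlog2 : 0 < Real.log 2 := Real.log_pos (by norm_num)
  obtain ⟨α, hα⟩ : ∃ α, α = ε / (2 ^ (d + 1) * (d : ℝ)) := ⟨_, rfl⟩
  obtain ⟨R, hR⟩ : ∃ R, R = ε * Real.log 2 / 2 ^ (d + 1) := ⟨_, rfl⟩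
  have hα0 : 0 < α := by rw [hα]; positivity
  have hR0 : 0 < R := by rw [hR]; positivity
  obtain ⟨M, hM, K₀, hG⟩ := hEP d (1 + α) R (by linarith) hR0
  obtain ⟨CT', hCT', hT'⟩ := hTCD d
  obtain ⟨CT, hCTdef⟩ : ∃ CT, CT = max CT' 1 := ⟨_, rfl⟩
  have hCT1 : 1 ≤ CT := by rw [hCTdef]; exact le_max_right _ _
  have hCTT : CT' ≤ CT := by rw [hCTdef]; exact le_max_left _ _
  have hCT0 : 0 < CT := by linarith
  obtain ⟨C₇, hC₇, h7⟩ := hTD2 d (2 ^ (M + 4)) (by positivity)
  obtain ⟨C₅, hC₅, h5⟩ := hTS2 d L (2 ^ (M + 4)) hL (one_le_pow₀ (by norm_num))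
  have hC50 : 0 < C₅ := by linarith
  obtain ⟨G, hGdef⟩ : ∃ G, G = cc d + C₇ + d * Real.log 2 + M * Real.log C₅ +
    α * Real.log CT := ⟨_, rfl⟩
  have hG0 : 0 ≤ G := by
    have h1 : 0 ≤ cc d := by
      unfold cc
      have : 0 ≤ Real.log 100 := Real.log_nonneg (by norm_num)
      positivity
    have h2 : 0 ≤ Real.log C₅ := Real.log_nonneg hC₅
    have h3 : 0 ≤ Real.log CT := Real.log_nonneg hCT1
    rw [hGdef]
    positivity
  obtain ⟨B, hBdef⟩ : ∃ B, B = Real.log CT + d * Real.log (16 * 2 ^ (M * K₀)) := ⟨_, rfl⟩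
  refine ⟨M, hM, 2 ^ d * G + max B 0, by positivity, ?_⟩
  intro δ hδ hδ1 ι _ _ c e k g q hcell hsep A hcov
  have hn0 : (0 : ℝ) < Fintype.card ι := by exact_mod_cast Fintype.card_pos
  have hnT : (Fintype.card ι : ℝ) ≤ CT * (δ ^ d)⁻¹ := by
    refine (hT' δ hδ hδ1 ι e hcell.unit hsep).trans ?_
    gcongr
  have hLd : 0 ≤ Real.log (1 / δ) := Real.log_nonneg (by
    rw [le_div_iff₀ hδ]
    linarith)
  have hS0 : 0 ≤ ∑ r ∈ Finset.Ico 1 M, Real.log (A r) := by
    refine Finset.sum_nonneg fun r hr => Real.log_nonneg ?_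
    rw [Finset.mem_Ico] at hr
    exact_mod_cast (hcov r hr.1 hr.2).1
  have hp : IsLaw (unif ι) := (hUNI ι Unit).1
  have hnr : ∀ s i, 1 ≤ nr k g δ c e s i ∧ nr k g δ c e s i ≤ Fintype.card ι := by
    intro s i
    unfold nr
    constructor
    · have : 0 < (univ.filter fun j => ∀ l, |pt (uT k g c e) (dT k e) s j l -
          pt (uT k g c e) (dT k e) s i l| ≤ 4 * δ).card := by
        rw [Finset.card_pos]
        refine ⟨i, ?_⟩
        rw [Finset.mem_filter]
        refine ⟨Finset.mem_univ _, fun l => ?_⟩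
        rw [sub_self, abs_zero]
        positivity
      exact_mod_cast this
    · exact_mod_cast Finset.card_le_univ _
  by_cases hgood : 16 * δ ≤ ((2 : ℝ) ^ (M * K₀))⁻¹
  · obtain ⟨K, hK0, hK1, hK2⟩ := exists_K hM hδ hgood
    obtain ⟨J, hJ⟩ : ∃ J, J = M * K := ⟨_, rfl⟩
    -- the main inequality for one shift
    have key : ∀ b : Fin d → Bool, Real.log (Fintype.card ι) -
        Xav (unif ι) (sft (uT k g c e) (sv J b)) (dT k e) (fun _ => ()) J ≤
          G + ∑ r ∈ Finset.Ico 1 M, Real.log (A r) + ε / 2 ^ d * Real.log (1 / δ) := by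
      intro b
      have hint : IntervalIntegrable (fun t => CH (unif ι)
          (Xp (sft (uT k g c e) (sv J b)) (dT k e) t J) (fun _ => ())) volume 0 1 :=
        (hINT d ι Unit (unif ι) _ _ hp).1 _ _ _ _
      have hdT : ∀ i l, |dT k e i l| ≤ 1 := by
        intro i l
        have h3 := (hcell.mx i).slp (hcell.unit i) l
        have h4 : hm d ≤ 1 := by
          unfold hm
          rw [div_le_one (by positivity)]
          have : (0 : ℝ) ≤ d := by positivity
          linarith
        have h5 : 0 ≤ hm d := by unfold hm; positivity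
        unfold dT
        rw [abs_mul, abs_of_nonneg h5]
        exact mul_le_one₀ h4 (abs_nonneg _) h3
      have hX : Xav (unif ι) (sft (uT k g c e) (sv J b)) (dT k e) (fun _ => ()) J ≤
          Real.log (Fintype.card ι) := by
        unfold Xav
        have h1 : ∫ t in (0 : ℝ)..1, CH (unif ι)
            (Xp (sft (uT k g c e) (sv J b)) (dT k e) t J) (fun _ => ()) ≤
            ∫ _ in (0 : ℝ)..1, Real.log (Fintype.card ι) := by
          refine intervalIntegral.integral_mono_on (by norm_num) hint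
            intervalIntegrable_const fun t _ => ?_
          rw [CH_unit hp]
          have h2 := H_le_log_card hp.nonneg hp.sum_one
            (Xp (sft (uT k g c e) (sv J b)) (dT k e) t J)
            (univ.image (Xp (sft (uT k g c e) (sv J b)) (dT k e) t J))
            (fun i _ => Finset.mem_image_of_mem _ (Finset.mem_univ _))
          refine h2.trans (Real.log_le_log ?_ ?_)
          · have : 0 < (univ.image (Xp (sft (uT k g c e) (sv J b)) (dT k e) t J)).card := by
              rw [Finset.card_pos]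
              exact Finset.univ_nonempty.image _
            exact_mod_cast this
          · exact_mod_cast Finset.card_image_le
        simpa using h1
      have hh : H (unif ι) (Fl (dT k e) J) ≤ cc d + (d * Real.log 2 + (M * Real.log C₅ +
          ∑ r ∈ Finset.Ico 1 M, Real.log (A r))) + ((1 + α) *
          Xav (unif ι) (sft (uT k g c e) (sv J b)) (dT k e) (fun _ => ()) J + R * (M * K)) := by
        have h1 := hSPA d ι Unit (unif ι) (sft (uT k g c e) (sv J b)) (dT k e) (fun _ => ()) hp
          hdT M K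
        have h2 := hG K hK0 ι Unit (unif ι) (sft (uT k g c e) (sv J b)) (dT k e) (fun _ => ())
          hp hdT
        rw [← hJ] at h1 h2
        rw [CH_unit hp, Finset.sum_add_distrib] at h1
        have h3 : ∑ r ∈ Finset.range M, CH (unif ι) (Fl (sft (uT k g c e) (sv J b)) (r * K))
            (fun ω => (Fl (dT k e) (r * K) ω, ())) ≤
            d * Real.log 2 + (M * Real.log C₅ + ∑ r ∈ Finset.Ico 1 M, Real.log (A r)) := by
          rw [Finset.range_eq_Ico, Finset.sum_eq_sum_Ico_succ_bot (by omega)]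
          refine add_le_add ?_ ?_
          · refine (CH_unit2 hp _ _).trans ?_
            refine (CH_mono_cond hp.nonneg (W := fun _ => ()) (fun _ _ _ _ _ => rfl)).trans ?_
            rw [CH_unit hp, zero_mul]
            refine coarse hp _ q hcell.ps _ fun l => ?_
            have h4 : ((2 : ℝ) ^ J)⁻¹ ≤ 1 := inv_le_one_of_one_le₀ (one_le_pow₀ (by norm_num))
            have h5 : (0 : ℝ) < ((2 : ℝ) ^ J)⁻¹ := by positivity
            unfold sv
            split_ifs
            · exact ⟨by linarith, by linarith⟩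
            · exact ⟨le_rfl, by norm_num⟩
          · have h4 : ∑ r ∈ Finset.Ico (0 + 1) M,
                CH (unif ι) (Fl (sft (uT k g c e) (sv J b)) (r * K))
                  (fun ω => (Fl (dT k e) (r * K) ω, ())) ≤
                ∑ r ∈ Finset.Ico (0 + 1) M, (Real.log C₅ + Real.log (A r)) := by
              refine Finset.sum_le_sum fun r hr => ?_
              rw [Finset.mem_Ico] at hr
              obtain ⟨hr1, hr2⟩ := hr
              have hcr := hcov r hr1 hr2
              have hsc := scales (r := r) hM hr2.le hδ hK1 hK2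
              have hM0 : (0 : ℝ) < M := by exact_mod_cast hM
              have hs0 : (0 : ℝ) ≤ (r : ℝ) / M := by positivity
              have hs1 : (r : ℝ) / M ≤ 1 := by
                rw [div_le_one hM0]
                exact_mod_cast hr2.le
              have hA0 : (0 : ℝ) < A r := by exact_mod_cast hcr.1
              have h6 : (1 : ℝ) ≤ 2 ^ (M + 4) := one_le_pow₀ (by norm_num)
              have h7 : 0 < ((2 : ℝ) ^ (r * K))⁻¹ := by positivity
              have h8 : δ ≤ δ ^ ((r : ℝ) / M) := by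
                calc δ = δ ^ (1 : ℝ) := (Real.rpow_one δ).symm
                  _ ≤ _ := Real.rpow_le_rpow_of_exponent_ge hδ hδ1.le hs1
              have h9 := h5 δ (δ ^ ((r : ℝ) / M)) (r * K) (A r) hδ hδ1 h8
                (Real.rpow_le_one hδ.le hδ1.le hs0)
                (hsc.1.trans (by nlinarith)) hsc.2 ι c e k g q hcell hcr.1 hcr.2 (unif ι)
                (sv J b) hp
              refine (CH_unit2 hp _ _).trans (h9.trans (le_of_eq ?_))
              rw [Real.log_mul hC50.ne' hA0.ne']
            refine h4.trans ?_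
            rw [Finset.sum_add_distrib, Finset.sum_const, Nat.card_Ico, nsmul_eq_mul, zero_add]
            have h6 : 0 ≤ Real.log C₅ := Real.log_nonneg hC₅
            have h7 : ((M - 1 : ℕ) : ℝ) ≤ M := by exact_mod_cast Nat.sub_le M 1
            have h8 := mul_le_mul_of_nonneg_right h7 h6
            linarith
        linarith
      have h7' := h7 δ J hδ hδ1 (by rw [hJ]; exact hK2) ι c e k g q hcell hsep
      have := arith hd hε hα hR hδ hn0 hnT hCT1 hX hK1 h7' hh
      rw [hGdef]
      exact this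
    -- comparison
    have hpt : ∀ s ∈ Set.Icc (0 : ℝ) 1, ∑ i, Real.log (nr k g δ c e s i) ≤
        ∑ b : Fin d → Bool, (Fintype.card ι : ℝ) * (Real.log (Fintype.card ι) -
          CH (unif ι) (Xp (sft (uT k g c e) (sv J b)) (dT k e) s J) (fun _ => ())) := by
      intro s _
      have h1 := hSHF d J ι (pt (uT k g c e) (dT k e) s) (4 * δ) (by positivity)
        (by rw [hJ]; linarith)
      refine h1.trans (Finset.sum_le_sum fun b _ => ?_)
      rw [CH_unit hp]
      have h2 := (hUNI ι (Fin d → ℤ)).2 (Xp (sft (uT k g c e) (sv J b)) (dT k e) s J)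
      have h3 : ∀ i, fl J (sft (pt (uT k g c e) (dT k e) s) (sv J b) i) =
          Xp (sft (uT k g c e) (sv J b)) (dT k e) s J i := by
        intro i
        unfold Xp
        congr 1
        funext l
        unfold sft pt
        ring
      have h4 : ∑ i, Real.log ((univ.filter fun j =>
          fl J (sft (pt (uT k g c e) (dT k e) s) (sv J b) j) =
            fl J (sft (pt (uT k g c e) (dT k e) s) (sv J b) i)).card) =
          ∑ i, Real.log ((univ.filter fun j =>
            Xp (sft (uT k g c e) (sv J b)) (dT k e) s J j =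
              Xp (sft (uT k g c e) (sv J b)) (dT k e) s J i).card) := by
        refine Finset.sum_congr rfl fun i _ => ?_
        have h5 : (univ.filter fun j =>
            fl J (sft (pt (uT k g c e) (dT k e) s) (sv J b) j) =
              fl J (sft (pt (uT k g c e) (dT k e) s) (sv J b) i)) = univ.filter fun j =>
            Xp (sft (uT k g c e) (sv J b)) (dT k e) s J j =
              Xp (sft (uT k g c e) (sv J b)) (dT k e) s J i := by
          ext j
          simp only [Finset.mem_filter, Finset.mem_univ, true_and]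
          rw [h3, h3]
        rw [h5]
      refine le_of_eq ?_
      have h6 : ∑ i, Real.log ((univ.filter fun j =>
            Xp (sft (uT k g c e) (sv J b)) (dT k e) s J j =
              Xp (sft (uT k g c e) (sv J b)) (dT k e) s J i).card) =
          (Fintype.card ι : ℝ) * Real.log (Fintype.card ι) - (Fintype.card ι : ℝ) *
            H (unif ι) (Xp (sft (uT k g c e) (sv J b)) (dT k e) s J) := by
        have h7 : ∀ i, (univ.filter fun j =>
            Xp (sft (uT k g c e) (sv J b)) (dT k e) s J j =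
              Xp (sft (uT k g c e) (sv J b)) (dT k e) s J i).card =
            (@Finset.filter _ (fun j => Xp (sft (uT k g c e) (sv J b)) (dT k e) s J j =
              Xp (sft (uT k g c e) (sv J b)) (dT k e) s J i)
              (fun _ => Classical.propDecidable _) univ).card := by
          intro i
          have h8 : (univ.filter fun j =>
            Xp (sft (uT k g c e) (sv J b)) (dT k e) s J j =
              Xp (sft (uT k g c e) (sv J b)) (dT k e) s J i) =
            (@Finset.filter _ (fun j => Xp (sft (uT k g c e) (sv J b)) (dT k e) s J j =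
              Xp (sft (uT k g c e) (sv J b)) (dT k e) s J i)
              (fun _ => Classical.propDecidable _) univ) := by
            ext j
            simp only [Finset.mem_filter, Finset.mem_univ, true_and]
          rw [h8]
        simp only [h7]
        linarith
      rw [mul_sub, ← h6]
      exact h4
    have hint : ∀ b : Fin d → Bool, IntervalIntegrable (fun s => (Fintype.card ι : ℝ) *
        (Real.log (Fintype.card ι) -
          CH (unif ι) (Xp (sft (uT k g c e) (sv J b)) (dT k e) s J) (fun _ => ()))) volume 0 1 :=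
      fun b => (intervalIntegrable_const.sub ((hINT d ι Unit (unif ι) _ _ hp).1 _ _ _ _)).const_mul _
    have hsum : IntervalIntegrable (fun s => ∑ b : Fin d → Bool, (Fintype.card ι : ℝ) *
        (Real.log (Fintype.card ι) -
          CH (unif ι) (Xp (sft (uT k g c e) (sv J b)) (dT k e) s J) (fun _ => ()))) volume 0 1 := by
      have h9 := IntervalIntegrable.sum (univ : Finset (Fin d → Bool)) fun b _ => hint b
      have h10 : (fun s => ∑ b : Fin d → Bool, (Fintype.card ι : ℝ) *
          (Real.log (Fintype.card ι) -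
            CH (unif ι) (Xp (sft (uT k g c e) (sv J b)) (dT k e) s J) (fun _ => ()))) =
          ∑ b : Fin d → Bool, fun s => (Fintype.card ι : ℝ) * (Real.log (Fintype.card ι) -
            CH (unif ι) (Xp (sft (uT k g c e) (sv J b)) (dT k e) s J) (fun _ => ())) := by
        funext s
        rw [Finset.sum_apply]
      rw [h10]
      exact h9
    have hI1 := intervalIntegral.integral_mono_on (by norm_num) (hNRI d ι k g δ c e 0 1) hsum hpt
    refine hI1.trans ?_
    rw [intervalIntegral.integral_finsetSum fun b _ => hint b]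
    have h8 : ∀ b ∈ (univ : Finset (Fin d → Bool)), ∫ s in (0 : ℝ)..1, (Fintype.card ι : ℝ) *
        (Real.log (Fintype.card ι) -
          CH (unif ι) (Xp (sft (uT k g c e) (sv J b)) (dT k e) s J) (fun _ => ())) ≤
        (Fintype.card ι : ℝ) * (G + ∑ r ∈ Finset.Ico 1 M, Real.log (A r) +
          ε / 2 ^ d * Real.log (1 / δ)) := by
      intro b _
      rw [intervalIntegral.integral_const_mul]
      refine mul_le_mul_of_nonneg_left ?_ hn0.le
      rw [intervalIntegral.integral_sub intervalIntegrable_const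
        ((hINT d ι Unit (unif ι) _ _ hp).1 _ _ _ _)]
      have := key b
      unfold Xav at this
      simpa using this
    refine (Finset.sum_le_sum h8).trans ?_
    rw [Finset.sum_const, Finset.card_univ, Fintype.card_fun, Fintype.card_bool,
      Fintype.card_fin, nsmul_eq_mul]
    push_cast
    have h9 : (2 : ℝ) ^ d * ((Fintype.card ι : ℝ) * (G + ∑ r ∈ Finset.Ico 1 M, Real.log (A r) +
          ε / 2 ^ d * Real.log (1 / δ))) = (Fintype.card ι : ℝ) * (2 ^ d * G +
          ε * Real.log (1 / δ) + 2 ^ d * ∑ r ∈ Finset.Ico 1 M, Real.log (A r)) := by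
      field_simp
      ring
    rw [h9]
    refine mul_le_mul_of_nonneg_left ?_ hn0.le
    have := le_max_right B 0
    linarith
  · -- large δ
    push Not at hgood
    have h1 : Real.log (1 / δ) ≤ Real.log (16 * 2 ^ (M * K₀)) := by
      refine Real.log_le_log (by positivity) ?_
      rw [div_le_iff₀ hδ]
      rw [inv_lt_iff_one_lt_mul₀ (by positivity)] at hgood
      nlinarith
    have h2 : Real.log (Fintype.card ι) ≤ B := by
      have := Real.log_le_log hn0 hnT
      rw [Real.log_mul hCT0.ne' (by positivity), Real.log_inv, Real.log_pow] at this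
      have h3 := mul_le_mul_of_nonneg_left h1 hd0.le
      rw [one_div, Real.log_inv] at h3
      rw [hBdef]
      linarith
    have h3 := intervalIntegral.integral_mono_on (by norm_num) (hNRI d ι k g δ c e 0 1)
      (intervalIntegrable_const (c := (Fintype.card ι : ℝ) * B)) (fun s _ => by
        have h4 : ∀ i ∈ (univ : Finset ι), Real.log (nr k g δ c e s i) ≤ B := fun i _ =>
          (Real.log_le_log (by linarith [(hnr s i).1]) (hnr s i).2).trans h2
        refine (Finset.sum_le_sum h4).trans (le_of_eq ?_)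
        rw [Finset.sum_const, Finset.card_univ, nsmul_eq_mul])
    refine h3.trans ?_
    rw [intervalIntegral.integral_const, sub_zero, one_smul]
    refine mul_le_mul_of_nonneg_left ?_ hn0.le
    have h4 := le_max_left B 0
    have h5 : 0 ≤ ε * Real.log (1 / δ) := by positivity
    have h6 : 0 ≤ 2 ^ d * ∑ r ∈ Finset.Ico 1 M, Real.log (A r) := by positivity
    have h7 : 0 ≤ 2 ^ d * G := by positivity
    linarith

end Pool.STK
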